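import Mathlib

set_option autoImplicit false
open MeasureTheory Filter Topology

namespace Pool.Agent.H653Z.HB

/-- `F` is a finite sum of biorthogonal rank one operators whose initial sums have norm at most `K`. -/
def Good {X : Type*} [NormedAddCommGroup X] [NormedSpace ℂ X] (K : ℝ) (F : X →L[ℂ] X) : Prop :=
  ∃ (D : ℕ) (u : ℕ → X) (g : ℕ → X →L[ℂ] ℂ), 0 < D ∧
    (∀ i < D, ∀ j < D, g i (u j) = if i = j then 1 else 0) ∧
    (∀ x, F x = ∑ i ∈ Finset.range D, g i x • u i) ∧
    ∀ r ≤ D, ∀ x, ‖∑ i ∈ Finset.range r, g i x • u i‖ ≤ K * ‖x‖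

/-- paths of length `j` with steps in `ZMod q` -/
def Om (q : ℕ) : ℕ → Type
  | 0 => Unit
  | j + 1 => Om q j × ZMod q

instance omFintype (q : ℕ) [NeZero q] : (j : ℕ) → Fintype (Om q j)
  | 0 => inferInstanceAs (Fintype Unit)
  | j + 1 => by
      haveI := omFintype q j
      exact inferInstanceAs (Fintype (Om q j × ZMod q))

instance omDecEq (q : ℕ) : (j : ℕ) → DecidableEq (Om q j)
  | 0 => inferInstanceAs (DecidableEq Unit)
  | j + 1 => by
      haveI := omDecEq q j
      exact inferInstanceAs (DecidableEq (Om q j × ZMod q))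

instance omNonempty (q : ℕ) : (j : ℕ) → Nonempty (Om q j)
  | 0 => inferInstanceAs (Nonempty Unit)
  | j + 1 => by
      have := omNonempty q j
      exact inferInstanceAs (Nonempty (Om q j × ZMod q))

theorem sum_om_succ (q : ℕ) [NeZero q] (j : ℕ) {M : Type*} [AddCommMonoid M] (f : Om q (j + 1) → M) :
    ∑ a, f a = ∑ a : Om q j, ∑ s : ZMod q, f (a, s) :=
  Fintype.sum_prod_type (α₁ := Om q j) (α₂ := ZMod q) f

theorem card_om (q : ℕ) [NeZero q] (j : ℕ) : Fintype.card (Om q j) = q ^ j := by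
  induction j with
  | zero => rfl
  | succ j ih =>
    have : Fintype.card (Om q (j + 1)) = Fintype.card (Om q j × ZMod q) := rfl
    rw [this, Fintype.card_prod, ih, ZMod.card, pow_succ]

/-- martingales whose increments are predictable multiples of the `q`-th root of unity of the step -/
def Mart (q : ℕ) [NeZero q] : (j : ℕ) → Submodule ℂ (Om q j → ℂ)
  | 0 => ⊤
  | j + 1 =>
    { carrier := {F | ∃ F' ∈ Mart q j, ∃ φ : Om q j → ℂ,
        ∀ (a : Om q j) (s : ZMod q), F (a, s) = F' a + φ a * ZMod.stdAddChar s}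
      add_mem' := by
        rintro F G ⟨F', hF, φ, h1⟩ ⟨G', hG, ψ, h2⟩
        refine ⟨F' + G', Submodule.add_mem _ hF hG, φ + ψ, fun a s => ?_⟩
        simp only [Pi.add_apply, h1, h2]; ring
      zero_mem' := ⟨0, Submodule.zero_mem _, 0, fun a s => by
        show (0 : ℂ) = 0 + 0 * _
        ring⟩
      smul_mem' := by
        rintro c F ⟨F', hF, φ, h1⟩
        refine ⟨c • F', Submodule.smul_mem _ c hF, c • φ, fun a s => ?_⟩
        simp only [Pi.smul_apply, smul_eq_mul, h1]; ring }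

theorem mem_mart_succ (q : ℕ) [NeZero q] (j : ℕ) (F : Om q (j + 1) → ℂ) :
    F ∈ Mart q (j + 1) ↔ ∃ F' ∈ Mart q j, ∃ φ : Om q j → ℂ,
      ∀ (a : Om q j) (s : ZMod q), F (a, s) = F' a + φ a * ZMod.stdAddChar s := Iff.rfl

theorem one_mem_mart (q : ℕ) [NeZero q] (j : ℕ) : (fun _ => (1 : ℂ)) ∈ Mart q j := by
  induction j with
  | zero => trivial
  | succ j ih => exact ⟨_, ih, 0, fun a s => by simp⟩

/-- the `d`-fold tensor power of `Mart q N` -/
def Hs (q : ℕ) [NeZero q] (N d : ℕ) : Submodule ℂ ((Fin d → Om q N) → ℂ) :=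
  Submodule.span ℂ {G | ∃ F : Fin d → Om q N → ℂ, (∀ l, F l ∈ Mart q N) ∧
    G = fun a => ∏ l, F l (a l)}

/-- `ℓ¹` of a finite set -/
abbrev L1 (Ω : Type) := PiLp 1 (fun _ : Ω => ℂ)

/-- `Hs` with the `ℓ¹` norm -/
def HH (q : ℕ) [NeZero q] (N d : ℕ) : Submodule ℂ (L1 (Fin d → Om q N)) :=
  (Hs q N d).comap (WithLp.linearEquiv 1 ℂ ((Fin d → Om q N) → ℂ)).toLinearMap

theorem mem_HH (q : ℕ) [NeZero q] (N d : ℕ) (F : L1 (Fin d → Om q N)) :
    F ∈ HH q N d ↔ F.ofLp ∈ Hs q N d := Iff.rfl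

/-- harmonic extension of the `k`-th character to the disc -/
noncomputable def wpow (w : ℂ) (k : ℤ) : ℂ :=
  if 0 ≤ k then w ^ k.toNat else (starRingEnd ℂ w) ^ (-k).toNat

abbrev T := AddCircle (1 : ℝ)

abbrev G := ℕ → T

noncomputable abbrev haar : Measure T := AddCircle.haarAddCircle

noncomputable def mu : Measure G := Measure.infinitePi (fun _ : ℕ => haar)

instance : IsProbabilityMeasure mu := by unfold mu; infer_instance

/-- the coordinate characters -/
noncomputable def co (n : ℕ) (κ : ℤ) : C(G, ℂ) :=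
  (fourier κ : C(T, ℂ)).comp ⟨fun x => x n, continuous_apply n⟩

/-- the characters of the infinite torus -/
noncomputable def ch (k : ℕ →₀ ℤ) : C(G, ℂ) := ∏ i ∈ k.support, co i (k i)

/-- analytic polynomials -/
noncomputable def An : Submodule ℂ C(G, ℂ) := Submodule.span ℂ {f | ∃ k : ℕ →₀ ℤ, (∀ i, 0 ≤ k i) ∧ f = ch k}

/-- invariance under translations of the coordinate `n` -/
def Inv {Y : Type*} (n : ℕ) (Φ : G → Y) : Prop := ∀ (x : G) (t : T), Φ (x + Pi.single n t) = Φ x

end Pool.Agent.H653Z.HB
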