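import Pool.Agent.H653Z.HB.Torus

set_option autoImplicit false
open MeasureTheory Filter Topology

namespace Pool.Agent.H653Z.HB

def CircS : Prop := ∀ (δ : ℝ), 0 < δ → ∃ q₀ : ℕ, ∀ (q : ℕ) [NeZero q], q₀ ≤ q →
    ∃ (A : ℕ) (t r : ZMod q → C(T, ℂ)) (ρ : ℤ → ℂ),
      (∀ s, t s ∈ Submodule.span ℂ {f : C(T, ℂ) | ∃ κ : ℤ, |κ| ≤ A ∧ f = fourier κ}) ∧
      (∀ s z, r s z = ∑ κ ∈ Finset.Icc (-(A : ℤ)) A,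
        ρ κ * ZMod.stdAddChar ((κ : ZMod q) * s) * fourier (-κ) z) ∧
      (∀ z, ∑ s, t s z = q) ∧ (∀ z, ∑ s, ZMod.stdAddChar s * t s z = q * fourier 1 z) ∧
      (∀ s, ∫ z, ‖t s z‖ ∂haar ≤ 1 + δ) ∧ (∀ z, ∑ s, ‖r s z‖ ≤ 1 + δ) ∧
      ∀ s', ∑ s, ‖(∫ z, r s z * t s' z ∂haar) - if s = s' then 1 else 0‖ ≤ δ

def PeakS : Prop := ∃ σ ψ : ℕ → C(T, ℂ),
    (∀ (z : T) (s : Finset ℕ), ∑ i ∈ s, ‖σ i z‖ ≤ 1) ∧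
    (∀ i, ψ i ∈ Submodule.span ℂ {f : C(T, ℂ) | ∃ κ : ℤ, 0 ≤ κ ∧ f = fourier κ}) ∧
    (∀ i, ∫ z, ‖ψ i z‖ ∂haar ≤ 2) ∧ ∀ i, ∫ z, σ i z * ψ i z ∂haar = 1

def DiscS : Prop := ∀ (L : ℕ) (τ : ℝ), 0 < τ → ∃ (n : ℕ) (θ : ℤ → ℝ), L ≤ n ∧
    (∀ k : ℤ, |k| ≤ L → θ k = 1) ∧ (∀ k, |θ k| ≤ 1) ∧ ∀ w : ℂ, ‖w‖ ≤ 1 → ∀ z : T,
      ‖∑ κ ∈ Finset.Icc (-(n : ℤ)) n, (θ κ : ℂ) * wpow w κ * fourier (-κ) z‖ ≤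
        (∑ κ ∈ Finset.Icc (-(n : ℤ)) n, (θ κ : ℂ) * wpow w κ * fourier (-κ) z).re + τ

def WalkS : Prop := ∀ (n : ℕ) (ε : ℝ), 0 < ε → ∃ N : ℕ, ∀ (q : ℕ) [NeZero q], n + 2 ≤ q →
    ∃ (W : Om q N → ℂ) (m : ℤ → Om q N → ℂ),
      (∀ a, ‖W a‖ ≤ 1) ∧ (∀ k : ℤ, 0 ≤ k → k ≤ n → m k ∈ Mart q N) ∧
      (∀ F ∈ Mart q N, ∀ k : ℤ, 1 ≤ k → k ≤ n → ∑ a, F a * wpow (W a) k = 0) ∧
      (∀ k : ℤ, k ≠ 0 → |k| ≤ n → ∑ a, wpow (W a) k = 0) ∧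
      (∀ k : ℤ, |k| ≤ n → ∑ a, ‖m k a - wpow (W a) k‖ ≤ ε * (q : ℝ) ^ N) ∧
      ∀ k k' : ℤ, |k| ≤ n → |k'| ≤ n →
        ∑ a, m k a * wpow (W a) (-k') = if k = k' then (q : ℂ) ^ N else 0

/-- the identity of the Hardy space factors approximately through the finite models -/
def FactS : Prop := ∀ S₀ : Finset (ℕ →₀ ℤ), ∃ N d q₀ : ℕ, ∀ (q : ℕ) [NeZero q], q₀ ≤ q →
    ∃ (S : Finset (ℕ →₀ ℤ)) (α : E →L[ℂ] L1 (Fin d → Om q N)) (β : L1 (Fin d → Om q N) →L[ℂ] E),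
      (∀ f, ‖α f‖ ≤ 3 * ‖f‖) ∧ (∀ h, ‖β h‖ ≤ 2 * ‖h‖) ∧
      (∀ f ∈ X, α f ∈ HH q N d) ∧ (∀ h ∈ HH q N d, β h ∈ X) ∧
      (∀ f, (∀ k ∈ S, coef k f = 0) → α f = 0) ∧
      (∀ h, β h ∈ Submodule.span ℂ (ee '' (S : Set (ℕ →₀ ℤ)))) ∧
      (∀ k ∈ S₀, β (α (ee k)) = ee k) ∧ ∀ k ∈ S₀, ∀ f, coef k (β (α f)) = coef k f

/-- kernels that embed the finite models complementably -/
def EmbS : Prop := ∀ N d : ℕ, ∃ q₀ : ℕ, ∀ (q : ℕ) [NeZero q], q₀ ≤ q →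
    ∃ Tk Rk : (Fin d → Om q N) → C(G, ℂ),
      (∀ a n, Inv (2 * n) (Tk a) ∧ Inv (2 * n) (Rk a)) ∧
      (∀ F ∈ Hs q N d, ∑ a, F a • Tk a ∈ An) ∧
      (∀ Φ : C(G, ℂ), (∀ n, Inv (2 * n + 1) Φ) → ∀ k : ℕ →₀ ℤ, (∀ i, 0 ≤ k i) →
        (fun a => ∫ x, Φ x * Rk a x * ch k x ∂mu) ∈ Hs q N d) ∧
      (∀ a, ∫ x, ‖Tk a x‖ ∂mu ≤ 2) ∧ (∀ x, ∑ a, ‖Rk a x‖ ≤ 2) ∧
      ∀ b, ∑ a, ‖(∫ x, Rk a x * Tk b x ∂mu) - if a = b then 1 else 0‖ ≤ 1 / 2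

/-- analytic polynomials are dense in the Hardy space -/
def DensS : Prop := ∀ f ∈ X, f ∈ (Submodule.span ℂ
    {g : E | ∃ k : ℕ →₀ ℤ, (∀ i, 0 ≤ k i) ∧ g = ee k}).topologicalClosure

/-- the `ℓ¹`-sum of the finite models, each repeated infinitely often, is complemented -/
def IotaS : Prop := ∃ q₀ : ℕ → ℕ → ℕ, ∀ N d Q : ℕ → ℕ, (∀ n, q₀ (N n) (d n) ≤ Q n + 1) →
    ∃ (ι : ∀ n, ℕ → HH (Q n + 1) (N n) (d n) →L[ℂ] X)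
      (π : ∀ n, ℕ → X →L[ℂ] HH (Q n + 1) (N n) (d n)),
      (∀ n r, ‖ι n r‖ ≤ 8) ∧
      (∀ (x : X) (s : Finset (ℕ × ℕ)), ∑ p ∈ s, ‖π p.1 p.2 x‖ ≤ 8 * ‖x‖) ∧
      (∀ n r h, π n r (ι n r h) = h) ∧
      ∀ n r m s, (n, r) ≠ (m, s) → ∀ h, π n r (ι m s h) = 0

/-- pointwise product inequality -/
theorem norm_prod_sub_prod_le {ι : Type*} (s : Finset ι) (x y : ι → ℂ) :
    ‖∏ i ∈ s, (x i + y i) - ∏ i ∈ s, x i‖ ≤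
      ∏ i ∈ s, (‖x i‖ + ‖y i‖) - ∏ i ∈ s, ‖x i‖ := by
  classical
  induction s using Finset.induction_on with
  | empty => simp
  | insert a s ha ih =>
    simp only [Finset.prod_insert ha]
    have h1 : (x a + y a) * ∏ i ∈ s, (x i + y i) - x a * ∏ i ∈ s, x i =
        x a * (∏ i ∈ s, (x i + y i) - ∏ i ∈ s, x i) + y a * ∏ i ∈ s, (x i + y i) := by ring
    have h2 : ‖∏ i ∈ s, (x i + y i)‖ ≤ ∏ i ∈ s, (‖x i‖ + ‖y i‖) := by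
      rw [norm_prod]
      exact Finset.prod_le_prod (fun i _ => norm_nonneg _) fun i _ => norm_add_le _ _
    rw [h1]
    refine (norm_add_le _ _).trans ?_
    rw [norm_mul, norm_mul]
    have h3 := mul_le_mul_of_nonneg_left ih (norm_nonneg (x a))
    have h4 := mul_le_mul_of_nonneg_left h2 (norm_nonneg (y a))
    linarith

/-- for every exponent there is a small `δ` with `(1+δ)^m ≤ 1 + η` -/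
theorem exists_small_pow (m : ℕ) (η : ℝ) (hη : 0 < η) : ∃ δ : ℝ, 0 < δ ∧ (1 + δ) ^ m ≤ 1 + η := by
  have hc : ContinuousAt (fun δ : ℝ => (1 + δ) ^ m) 0 := by fun_prop
  have h1 : ∀ᶠ δ in 𝓝 (0 : ℝ), (1 + δ) ^ m < 1 + η :=
    hc.eventually (gt_mem_nhds (by simpa using hη))
  obtain ⟨δ, hδ, h2⟩ := ((h1.filter_mono nhdsWithin_le_nhds).and
    (self_mem_nhdsWithin (s := Set.Ioi (0 : ℝ)))).exists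
  exact ⟨δ, h2, hδ.le⟩

end Pool.Agent.H653Z.HB
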