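import Pool.Agent.H653Z.HB.Defs

set_option autoImplicit false
open MeasureTheory Filter Topology

namespace Pool.Agent.H653Z.HB

theorem cont_integrable {Y V : Type*} [TopologicalSpace Y] [CompactSpace Y] [MeasurableSpace Y]
    [OpensMeasurableSpace Y] [NormedAddCommGroup V] (ν : Measure Y) [IsFiniteMeasure ν]
    {f : Y → V} (hf : Continuous f) : Integrable f ν :=
  hf.integrable_of_hasCompactSupport (HasCompactSupport.of_compactSpace f)

instance : Measure.IsAddRightInvariant mu := by
  refine ⟨fun y => ?_⟩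
  have h := Measure.infinitePi_map_pi (fun _ : ℕ => haar) (f := fun i (x : T) => x + y i)
    (fun i => measurable_add_const _)
  have h2 : (fun i : ℕ => Measure.map (fun x : T => x + y i) haar) = fun _ => haar := by
    funext i; exact map_add_right_eq_self _ _
  simp only [h2] at h
  exact h

theorem int_shift {V : Type*} [NormedAddCommGroup V] [NormedSpace ℝ V] (f : G → V) (y : G) :
    ∫ x, f (x + y) ∂mu = ∫ x, f x ∂mu := integral_add_right_eq_self f y

theorem fourier_add_pt (κ : ℤ) (s t : T) :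
    (fourier κ (s + t) : ℂ) = fourier κ s * fourier κ t := by
  simp only [fourier_apply, smul_add, AddCircle.toCircle_add, Circle.coe_mul]

theorem norm_fourier (κ : ℤ) (s : T) : ‖(fourier κ s : ℂ)‖ = 1 := by
  rw [fourier_apply]; exact Circle.norm_coe _

/-- a function that transforms by a nontrivial character under translation of one coordinate has
integral zero -/
theorem cov_zero (f : G → ℂ) (n : ℕ) (κ : ℤ) (hκ : κ ≠ 0)
    (h : ∀ (x : G) (t : T), f (x + Pi.single n t) = fourier κ t * f x) : ∫ x, f x ∂mu = 0 := by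
  have h1 := int_shift f (Pi.single n ((1 / 2 / (κ : ℝ) : ℝ) : T))
  have h2 : (fourier κ ((1 / 2 / (κ : ℝ) : ℝ) : T) : ℂ) = -1 := by
    have := fourier_add_half_inv_index (T := 1) hκ one_pos 0
    simpa using this
  simp only [h, h2, neg_mul, one_mul, integral_neg] at h1
  linear_combination (-1 / 2 : ℂ) * h1

/-- independence of a shifted coordinate from everything invariant under that coordinate -/
theorem ind {𝕜 : Type*} [RCLike 𝕜] (n : ℕ) (Φ : G → 𝕜) (hΦ : Continuous Φ) (hi : Inv n Φ)
    (ζ : G → T) (hζ : Continuous ζ) (hs : ∀ (x : G) (t : T), ζ (x + Pi.single n t) = ζ x + t)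
    (g : T → 𝕜) (hg : Continuous g) :
    ∫ x, Φ x * g (ζ x) ∂mu = (∫ x, Φ x ∂mu) * ∫ t, g t ∂haar := by
  have h1 : ∀ t : T, ∫ x, Φ x * g (ζ x + t) ∂mu = ∫ x, Φ x * g (ζ x) ∂mu := by
    intro t
    rw [← int_shift (fun x => Φ x * g (ζ x)) (Pi.single n t)]
    simp only [hi _ t, hs]
  have h2 : ∫ x, Φ x * g (ζ x) ∂mu = ∫ t, ∫ x, Φ x * g (ζ x + t) ∂mu ∂haar := by
    simp only [h1]; simp
  rw [h2, integral_integral_swap]
  · have h3 : ∀ x : G, ∫ t, Φ x * g (ζ x + t) ∂haar = Φ x * ∫ t, g t ∂haar := by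
      intro x
      rw [integral_const_mul, integral_add_left_eq_self]
    simp only [h3]
    rw [integral_mul_const]
  · apply cont_integrable
    unfold Function.uncurry
    fun_prop

theorem single_apply_ne {n m : ℕ} (h : n ≠ m) (x : G) (t : T) :
    (x + (Pi.single n t : G)) m = x m := by
  simp [Pi.single_eq_of_ne h.symm]

theorem single_apply_self (n : ℕ) (x : G) (t : T) :
    (x + (Pi.single n t : G)) n = x n + t := by
  simp

@[simp] theorem co_apply (n : ℕ) (κ : ℤ) (x : G) : co n κ x = fourier κ (x n) := rfl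

theorem ch_apply (k : ℕ →₀ ℤ) (x : G) : ch k x = ∏ i ∈ k.support, fourier (k i) (x i) := by
  simp [ch]

theorem ch_apply_of_subset (k : ℕ →₀ ℤ) (s : Finset ℕ) (hs : k.support ⊆ s) (x : G) :
    ch k x = ∏ i ∈ s, fourier (k i) (x i) := by
  rw [ch_apply]
  refine Finset.prod_subset hs fun i _ hi => ?_
  rw [Finsupp.notMem_support_iff.1 hi]; simp

theorem ch_zero : ch 0 = 1 := by simp [ch]

theorem ch_add (k k' : ℕ →₀ ℤ) : ch (k + k') = ch k * ch k' := by
  classical
  ext x
  rw [ContinuousMap.mul_apply, ch_apply_of_subset _ (k.support ∪ k'.support) Finsupp.support_add,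
    ch_apply_of_subset k (k.support ∪ k'.support) Finset.subset_union_left,
    ch_apply_of_subset k' (k.support ∪ k'.support) Finset.subset_union_right,
    ← Finset.prod_mul_distrib]
  refine Finset.prod_congr rfl fun i _ => ?_
  rw [Finsupp.add_apply, fourier_add]

theorem ch_single (n : ℕ) (κ : ℤ) : ch (Finsupp.single n κ) = co n κ := by
  ext x
  rw [ch_apply_of_subset _ {n} Finsupp.support_single_subset]
  simp

theorem norm_ch (k : ℕ →₀ ℤ) (x : G) : ‖ch k x‖ = 1 := by
  rw [ch_apply, norm_prod]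
  exact Finset.prod_eq_one fun i _ => norm_fourier _ _

theorem ch_neg (k : ℕ →₀ ℤ) (x : G) : ch (-k) x = starRingEnd ℂ (ch k x) := by
  rw [ch_apply, ch_apply, map_prod, Finsupp.support_neg]
  refine Finset.prod_congr rfl fun i _ => ?_
  rw [Finsupp.neg_apply, fourier_neg]

theorem ch_shift (k : ℕ →₀ ℤ) (n : ℕ) (x : G) (t : T) :
    ch k (x + Pi.single n t) = fourier (k n) t * ch k x := by
  classical
  have hs : k.support ⊆ insert n k.support := Finset.subset_insert _ _
  rw [ch_apply_of_subset k _ hs, ch_apply_of_subset k _ hs,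
    ← Finset.mul_prod_erase _ _ (Finset.mem_insert_self n _),
    ← Finset.mul_prod_erase _ _ (Finset.mem_insert_self n _), single_apply_self, fourier_add_pt]
  have : ∏ i ∈ (insert n k.support).erase n, (fourier (k i) ((x + (Pi.single n t : G)) i) : ℂ) =
      ∏ i ∈ (insert n k.support).erase n, fourier (k i) (x i) := by
    refine Finset.prod_congr rfl fun i hi => ?_
    rw [single_apply_ne (Finset.ne_of_mem_erase hi).symm]
  rw [this]; ring

theorem int_ch (k : ℕ →₀ ℤ) : ∫ x, ch k x ∂mu = if k = 0 then 1 else 0 := by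
  split_ifs with h
  · subst h; simp [ch_zero]
  · obtain ⟨n, hn⟩ := Finsupp.ne_iff.1 h
    exact cov_zero _ n (k n) hn (ch_shift k n)

theorem ch_mem_An (k : ℕ →₀ ℤ) (hk : ∀ i, 0 ≤ k i) : ch k ∈ An :=
  Submodule.subset_span ⟨k, hk, rfl⟩

theorem one_mem_An : (1 : C(G, ℂ)) ∈ An := by
  rw [← ch_zero]; exact ch_mem_An 0 fun _ => le_rfl

theorem co_mem_An (n : ℕ) (κ : ℤ) (hκ : 0 ≤ κ) : co n κ ∈ An := by
  rw [← ch_single]
  refine ch_mem_An _ fun i => ?_
  rw [Finsupp.single_apply]; split_ifs <;> simp [hκ]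

theorem mul_mem_An {f g : C(G, ℂ)} (hf : f ∈ An) (hg : g ∈ An) : f * g ∈ An := by
  induction hf using Submodule.span_induction with
  | mem f hf =>
    induction hg using Submodule.span_induction with
    | mem g hg =>
      obtain ⟨k, hk, rfl⟩ := hf
      obtain ⟨k', hk', rfl⟩ := hg
      rw [← ch_add]
      exact ch_mem_An _ fun i => add_nonneg (hk i) (hk' i)
    | zero => simp
    | add a b _ _ ha hb => rw [mul_add]; exact add_mem ha hb
    | smul c a _ ha => rw [mul_smul_comm]; exact Submodule.smul_mem _ c ha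
  | zero => simp
  | add a b _ _ ha hb => rw [add_mul]; exact add_mem ha hb
  | smul c a _ ha => rw [smul_mul_assoc]; exact Submodule.smul_mem _ c ha

theorem prod_mem_An {ι : Type*} (s : Finset ι) (f : ι → C(G, ℂ)) (hf : ∀ i ∈ s, f i ∈ An) :
    ∏ i ∈ s, f i ∈ An :=
  Finset.prod_induction f (· ∈ An) (fun _ _ => mul_mem_An) one_mem_An hf

theorem pow_mem_An {f : C(G, ℂ)} (hf : f ∈ An) (n : ℕ) : f ^ n ∈ An := by
  induction n with
  | zero => simpa using one_mem_An
  | succ n ih => rw [pow_succ]; exact mul_mem_An ih hf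

noncomputable abbrev E := Lp ℂ 1 mu

noncomputable def toE : C(G, ℂ) →L[ℂ] E := ContinuousMap.toLp 1 mu ℂ

theorem toE_ae (f : C(G, ℂ)) : (toE f : G → ℂ) =ᵐ[mu] f := ContinuousMap.coeFn_toLp mu f

theorem norm_toE (f : C(G, ℂ)) : ‖toE f‖ = ∫ x, ‖f x‖ ∂mu := by
  rw [L1.norm_eq_integral_norm]
  exact integral_congr_ae ((toE_ae f).mono fun x hx => by simp only [hx])

theorem integrable_mul (φ : C(G, ℂ)) (f : E) : Integrable (fun x => φ x * f x) mu :=
  (L1.integrable_coeFn f).bdd_mul φ.continuous.aestronglyMeasurable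
    (Eventually.of_forall fun x => φ.norm_coe_le_norm x)

theorem integrable_norm_mul (φ : C(G, ℂ)) (f : E) : Integrable (fun x => ‖φ x‖ * ‖f x‖) mu := by
  simpa only [norm_mul] using (integrable_mul φ f).norm

/-- integration against a continuous function -/
noncomputable def pair (φ : C(G, ℂ)) : E →L[ℂ] ℂ :=
  LinearMap.mkContinuous
    { toFun := fun f => ∫ x, φ x * f x ∂mu
      map_add' := fun f g => by
        rw [← integral_add (integrable_mul φ f) (integrable_mul φ g)]
        exact integral_congr_ae ((Lp.coeFn_add f g).mono fun x hx => by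
          simp only [hx, Pi.add_apply, mul_add])
      map_smul' := fun c f => by
        rw [RingHom.id_apply, smul_eq_mul, ← integral_const_mul]
        exact integral_congr_ae ((Lp.coeFn_smul c f).mono fun x hx => by
          simp only [hx, Pi.smul_apply, smul_eq_mul]; ring) } ‖φ‖ (fun f => by
      refine (norm_integral_le_integral_norm _).trans ?_
      rw [L1.norm_eq_integral_norm, ← integral_const_mul]
      refine integral_mono (integrable_mul φ f).norm
        ((L1.integrable_coeFn f).norm.const_mul _) fun x => ?_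
      simp only [norm_mul]
      exact mul_le_mul_of_nonneg_right (φ.norm_coe_le_norm x) (norm_nonneg _))

theorem pair_apply (φ : C(G, ℂ)) (f : E) : pair φ f = ∫ x, φ x * f x ∂mu := rfl

theorem pair_toE (φ f : C(G, ℂ)) : pair φ (toE f) = ∫ x, φ x * f x ∂mu := by
  rw [pair_apply]
  exact integral_congr_ae ((toE_ae f).mono fun x hx => by simp only [hx])

theorem pair_add (φ ψ : C(G, ℂ)) (f : E) : pair (φ + ψ) f = pair φ f + pair ψ f := by
  simp only [pair_apply]
  rw [← integral_add (integrable_mul φ f) (integrable_mul ψ f)]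
  simp only [ContinuousMap.add_apply, add_mul]

theorem pair_smul (c : ℂ) (φ : C(G, ℂ)) (f : E) : pair (c • φ) f = c * pair φ f := by
  simp only [pair_apply]
  rw [← integral_const_mul]
  simp only [ContinuousMap.smul_apply, smul_eq_mul, mul_assoc]

theorem pair_sum {ι : Type*} (s : Finset ι) (φ : ι → C(G, ℂ)) (f : E) :
    pair (∑ i ∈ s, φ i) f = ∑ i ∈ s, pair (φ i) f := by
  classical
  induction s using Finset.induction_on with
  | empty => simp [pair_apply]
  | insert a s ha ih => rw [Finset.sum_insert ha, Finset.sum_insert ha, pair_add, ih]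

/-- a family of kernels whose absolute values sum to at most `c` -/
theorem sum_norm_pair_le {ι : Type*} (s : Finset ι) (φ : ι → C(G, ℂ)) (c : ℝ)
    (h : ∀ x, ∑ i ∈ s, ‖φ i x‖ ≤ c) (f : E) : ∑ i ∈ s, ‖pair (φ i) f‖ ≤ c * ‖f‖ := by
  calc ∑ i ∈ s, ‖pair (φ i) f‖ ≤ ∑ i ∈ s, ∫ x, ‖φ i x‖ * ‖f x‖ ∂mu := by
        refine Finset.sum_le_sum fun i _ => ?_
        rw [pair_apply]
        refine (norm_integral_le_integral_norm _).trans (le_of_eq ?_)
        simp only [norm_mul]
    _ = ∫ x, ∑ i ∈ s, ‖φ i x‖ * ‖f x‖ ∂mu :=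
        (integral_finsetSum _ fun i _ => integrable_norm_mul (φ i) f).symm
    _ ≤ ∫ x, c * ‖f x‖ ∂mu := by
        refine integral_mono (integrable_finsetSum _ fun i _ => integrable_norm_mul (φ i) f)
          ((L1.integrable_coeFn f).norm.const_mul _) fun x => ?_
        simp only [← Finset.sum_mul]
        exact mul_le_mul_of_nonneg_right (h x) (norm_nonneg _)
    _ = c * ‖f‖ := by rw [integral_const_mul, L1.norm_eq_integral_norm]

/-- Fourier coefficients -/
noncomputable def coef (k : ℕ →₀ ℤ) : E →L[ℂ] ℂ := pair (ch (-k))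

/-- the characters as elements of `L¹` -/
noncomputable def ee (k : ℕ →₀ ℤ) : E := toE (ch k)

theorem coef_ee (k k' : ℕ →₀ ℤ) : coef k (ee k') = if k = k' then 1 else 0 := by
  rw [coef, ee, pair_toE]
  have : ∀ x, ch (-k) x * ch k' x = ch (-k + k') x := fun x => by rw [ch_add]; rfl
  simp only [this, int_ch, neg_add_eq_zero]

theorem norm_ee (k : ℕ →₀ ℤ) : ‖ee k‖ = 1 := by
  rw [ee, norm_toE]; simp [norm_ch]

theorem norm_coef_le (k : ℕ →₀ ℤ) (f : E) : ‖coef k f‖ ≤ ‖f‖ := by
  have := sum_norm_pair_le {()} (fun _ => ch (-k)) 1 (fun x => by simp [norm_ch]) f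
  simpa [coef] using this

/-- the Hardy space -/
noncomputable def X : Submodule ℂ E where
  carrier := {f | ∀ k : ℕ →₀ ℤ, (∃ i, k i < 0) → coef k f = 0}
  add_mem' := fun hf hg k hk => by rw [map_add, hf k hk, hg k hk, add_zero]
  zero_mem' := fun k _ => map_zero _
  smul_mem' := fun c f hf k hk => by rw [map_smul, hf k hk, smul_zero]

theorem mem_X (f : E) : f ∈ X ↔ ∀ k : ℕ →₀ ℤ, (∃ i, k i < 0) → coef k f = 0 := Iff.rfl

theorem isClosed_X : IsClosed (X : Set E) := by
  have : (X : Set E) = ⋂ k : ℕ →₀ ℤ, ⋂ _ : (∃ i, k i < 0), {f | coef k f = 0} := by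
    ext f; simp [mem_X]
  rw [this]
  exact isClosed_iInter fun k => isClosed_iInter fun _ =>
    isClosed_eq (coef k).continuous continuous_const

instance : CompleteSpace X := isClosed_X.completeSpace_coe

theorem ee_mem_X (k : ℕ →₀ ℤ) (hk : ∀ i, 0 ≤ k i) : ee k ∈ X := by
  rintro k' ⟨i, hi⟩
  rw [coef_ee, if_neg]
  rintro rfl
  exact absurd (hk i) (not_le.2 hi)

theorem toE_mem_X {f : C(G, ℂ)} (hf : f ∈ An) : toE f ∈ X := by
  induction hf using Submodule.span_induction with
  | mem f hf => obtain ⟨k, hk, rfl⟩ := hf; exact ee_mem_X k hk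
  | zero => simp
  | add a b _ _ ha hb => rw [map_add]; exact add_mem ha hb
  | smul c a _ ha => rw [map_smul]; exact Submodule.smul_mem _ c ha

theorem norm_L1 {Ω : Type} [Fintype Ω] (F : L1 Ω) : ‖F‖ = ∑ a, ‖F a‖ := PiLp.norm_eq_of_L1 F

/-- synthesis operator of a finite family of kernels -/
noncomputable def synth {Ω : Type} [Fintype Ω] (κ : Ω → C(G, ℂ)) : L1 Ω →L[ℂ] E :=
  ∑ a, (PiLp.proj (𝕜 := ℂ) 1 (fun _ : Ω => ℂ) a).smulRight (toE (κ a))

theorem synth_apply {Ω : Type} [Fintype Ω] (κ : Ω → C(G, ℂ)) (F : L1 Ω) :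
    synth κ F = toE (∑ a, F a • κ a) := by
  simp [synth]

theorem norm_synth_le {Ω : Type} [Fintype Ω] (κ : Ω → C(G, ℂ)) (c : ℝ)
    (h : ∀ a, ∫ x, ‖κ a x‖ ∂mu ≤ c) (F : L1 Ω) : ‖synth κ F‖ ≤ c * ‖F‖ := by
  rw [synth_apply, map_sum, norm_L1, Finset.mul_sum]
  refine (norm_sum_le _ _).trans (Finset.sum_le_sum fun a _ => ?_)
  rw [map_smul, norm_smul, norm_toE, mul_comm]
  exact mul_le_mul_of_nonneg_right (h a) (norm_nonneg _)

/-- analysis operator of a finite family of kernels -/
noncomputable def anal {Ω : Type} [Fintype Ω] (κ : Ω → C(G, ℂ)) : E →L[ℂ] L1 Ω :=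
  (PiLp.continuousLinearEquiv 1 ℂ (fun _ : Ω => ℂ)).symm.toContinuousLinearMap.comp
    (ContinuousLinearMap.pi fun a => pair (κ a))

theorem anal_apply {Ω : Type} [Fintype Ω] (κ : Ω → C(G, ℂ)) (f : E) (a : Ω) :
    anal κ f a = pair (κ a) f := rfl

theorem norm_anal_le {Ω : Type} [Fintype Ω] (κ : Ω → C(G, ℂ)) (c : ℝ)
    (h : ∀ x, ∑ a, ‖κ a x‖ ≤ c) (f : E) : ‖anal κ f‖ ≤ c * ‖f‖ := by
  rw [norm_L1]
  exact sum_norm_pair_le Finset.univ κ c h f

/-- trigonometric polynomials are dense in `L¹` -/
theorem dense_trig : (Submodule.span ℂ (Set.range ee)).topologicalClosure = ⊤ := by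
  let S : StarSubalgebra ℂ C(G, ℂ) :=
    { (Submodule.span ℂ (Set.range ch)).toSubalgebra
        (Submodule.subset_span ⟨0, ch_zero⟩)
        (fun f g hf hg => by
          induction hf using Submodule.span_induction with
          | mem f hf =>
            induction hg using Submodule.span_induction with
            | mem g hg =>
              obtain ⟨k, rfl⟩ := hf
              obtain ⟨k', rfl⟩ := hg
              rw [← ch_add]
              exact Submodule.subset_span ⟨_, rfl⟩
            | zero => simp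
            | add a b _ _ ha hb => rw [mul_add]; exact add_mem ha hb
            | smul c a _ ha => rw [mul_smul_comm]; exact Submodule.smul_mem _ c ha
          | zero => simp
          | add a b _ _ ha hb => rw [add_mul]; exact add_mem ha hb
          | smul c a _ ha => rw [smul_mul_assoc]; exact Submodule.smul_mem _ c ha) with
      star_mem' := fun {f} hf => by
        change f ∈ Submodule.span ℂ (Set.range ch) at hf
        change star f ∈ Submodule.span ℂ (Set.range ch)
        induction hf using Submodule.span_induction with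
        | mem f hf =>
          obtain ⟨k, rfl⟩ := hf
          refine Submodule.subset_span ⟨-k, ?_⟩
          ext x; rw [ch_neg]; rfl
        | zero => simp
        | add a b _ _ ha hb => rw [star_add]; exact add_mem ha hb
        | smul c a _ ha => rw [star_smul]; exact Submodule.smul_mem _ _ ha }
  have hsep : S.SeparatesPoints := by
    intro x y hxy
    obtain ⟨n, hn⟩ := Function.ne_iff.1 hxy
    refine ⟨_, ⟨ch (Finsupp.single n 1), Submodule.subset_span ⟨_, rfl⟩, rfl⟩, ?_⟩
    simp only [ch_single, co_apply, fourier_one]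
    intro h
    exact hn (AddCircle.injective_toCircle one_ne_zero (Subtype.ext h))
  have h1 := ContinuousMap.starSubalgebra_topologicalClosure_eq_top_of_separatesPoints S hsep
  have h2 : (Submodule.span ℂ (Set.range ch)).topologicalClosure = ⊤ :=
    congr_arg (Subalgebra.toSubmodule <| StarSubalgebra.toSubalgebra ·) h1
  have h3 := (ContinuousMap.toLp_denseRange ℂ mu ℂ
    (p := 1) ENNReal.one_ne_top).topologicalClosure_map_submodule h2
  rw [Submodule.map_span, ← Set.range_comp] at h3
  exact h3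

end Pool.Agent.H653Z.HB
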